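import Pool.Agent.H14.RP.Exact
import Pool.Agent.H14.RP.Tot

/-!
# The Schnirelmann constant of the reversed primes: all bases, and the sharp constant

Let `K_b` be the least integer `K ≥ 2` such that every sufficiently large integer is a sum of at most
`K` reversed primes in base `b`. There is an absolute `C` with `K_b ≤ C log b` for every `b ≥ 2`
(this is the answer to Q1). Here `K_b` is found for every base up to an error `O ((log log b) ^ 4)`,
and the best constant is `1 / 2`: `limsup K_b / log b = 1 / 2`, with `K_b ~ (log b) / 2` for the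
primorials `b`.

Let `D_b` be the least `K` such that for every digit `t < b` at most `K` digits coprime to `b` have a sum
`s` with `s ≤ t < s + K`.

* Lower bound (`RP.cov_digit`). If `(t + 1) b ^ (L - 1) - 1` is a sum of at most `K` reversed primes then
  the leading digits of those with `L` digits are coprime to `b`, and at most `K - 1` is carried to them.
  So `D_b ≤ K_b` for every `b ≥ 2`.
* Upper bound (`RP.one_base2`, `RP.exact_upper`). By the fourth moment bound of `R482.KB` all the integers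
  of an interval of length `2 b ^ L` are sums of `O ((q / φ (q)) ^ 4)` reversed primes, `q = b (b ^ 2 - 1)`.
  This interval is reached from every large integer by the subtraction of one reversed prime for every
  digit coprime to `b` which is used; the second digit of a reversed prime is free, so that every digit
  used gives one unit of carry. So `K_b ≤ D_b + C (q / φ (q)) ^ 4`, and `q / φ (q) ≤ C log log b`
  (`RP.fi_loglog`).
* `D_b ≤ (1 / 2 + ε) log b + 1` for `b ≥ b₀ (ε)` (`RP.digits`, from the prime number theorem): the least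
  prime `p` not dividing `b` is at most `(1 + o (1)) log b`; up to `(log b) ^ 2` the primes not dividing
  `b` are dense from `(1 + o (1)) log b` on.
* `D_b ≥ (y + 1) / 2` for the primorial `b = y#`, and `y ~ log b` (`RP.lower`).
-/

set_option autoImplicit false

namespace Pool.Agent.Results.MP_eac634_nt.SharpConstant

/-- `r` is a reversed prime in base `b`: for some prime `p = ∑_{i < L} ε_i b ^ i` with `L` digits in
base `b` one has `r = ∑_{i < L} ε_i b ^ (L - 1 - i)`. -/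
def ReversedPrime (b r : ℕ) : Prop :=
  ∃ p : ℕ, p.Prime ∧ r = Nat.ofDigits b (Nat.digits b p).reverse

/-- Every sufficiently large integer is a sum of at most `K` reversed primes in base `b`,
repetitions allowed. -/
def IsOrder (b K : ℕ) : Prop := ∃ N₀ : ℕ, ∀ N : ℕ, N₀ ≤ N →
  ∃ l : List ℕ, l.length ≤ K ∧ (∀ r ∈ l, ReversedPrime b r) ∧ l.sum = N

/-- `K_b`: the least integer `K ≥ 2` such that every sufficiently large integer is a sum of at most
`K` reversed primes in base `b`, and `∞` if there is none. -/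
noncomputable def Kb (b : ℕ) : ℕ∞ := ⨅ K ∈ {K : ℕ | 2 ≤ K ∧ IsOrder b K}, (K : ℕ∞)

/-- For every digit `t < b` there are at most `K` digits coprime to `b` (repetitions allowed) whose sum
`s` satisfies `s ≤ t < s + K`. -/
def DigitCover (b K : ℕ) : Prop := ∀ t : ℕ, t < b → ∃ l : List ℕ, l.length ≤ K ∧
  (∀ a ∈ l, 1 ≤ a ∧ a < b ∧ Nat.Coprime a b) ∧ l.sum ≤ t ∧ t < l.sum + K

/-- `D_b`: the least `K` with `DigitCover b K`. -/
noncomputable def Db (b : ℕ) : ℕ := sInf {K : ℕ | DigitCover b K}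

/-- `K_b` is attained -/
lemma Kb_eq (b K : ℕ) (h2 : 2 ≤ K) (hK : IsOrder b K) :
    ∃ k : ℕ, Kb b = k ∧ 2 ≤ k ∧ IsOrder b k ∧ k ≤ K := by
  have hmem : K ∈ {K : ℕ | 2 ≤ K ∧ IsOrder b K} := ⟨h2, hK⟩
  have hs := Nat.sInf_mem (⟨K, hmem⟩ : {K : ℕ | 2 ≤ K ∧ IsOrder b K}.Nonempty)
  refine ⟨sInf {K : ℕ | 2 ≤ K ∧ IsOrder b K}, ?_, hs.1, hs.2, Nat.sInf_le hmem⟩
  unfold Kb
  apply le_antisymm
  · exact iInf₂_le _ hs
  · exact le_iInf₂ fun K' hK' => Nat.cast_le.2 (Nat.sInf_le hK')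

/-- (1) There is an absolute constant `C > 0` such that for every base `b ≥ 2` the number `K_b` is finite
(and it is attained) and `K_b ≤ C log b`.

(2) There is an absolute constant `C > 0` such that for every base `b ≥ 2`, with `q = b (b ^ 2 - 1)`,
`D_b ≤ K_b ≤ D_b + C (q / φ (q)) ^ 4`, and `K_b ≤ D_b + C (log log b) ^ 4` if `b ≥ 16`.

(3) For every `ε > 0` there is `n₀` such that `K_b ≤ (1 / 2 + ε) log b` for every `b ≥ n₀`, and
`K_b ≥ (1 / 2 - ε) log b` for every primorial `b = y# = ∏_{p ≤ y} p > y` with `y ≥ n₀`. -/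
theorem result :
    (∃ C : ℝ, 0 < C ∧ ∀ b : ℕ, 2 ≤ b →
      ∃ k : ℕ, Kb b = k ∧ 2 ≤ k ∧ IsOrder b k ∧ (k : ℝ) ≤ C * Real.log b) ∧
    (∃ C : ℝ, 0 < C ∧ ∀ b : ℕ, 2 ≤ b → ∃ k : ℕ, Kb b = k ∧ Db b ≤ k ∧
      (k : ℝ) ≤ Db b +
        C * (((b * (b ^ 2 - 1) : ℕ) : ℝ) / (Nat.totient (b * (b ^ 2 - 1)) : ℝ)) ^ 4 ∧
      (16 ≤ b → (k : ℝ) ≤ Db b + C * Real.log (Real.log b) ^ 4)) ∧
    (∀ ε : ℝ, 0 < ε → ∃ n₀ : ℕ,
      (∀ b : ℕ, n₀ ≤ b → ∃ k : ℕ, Kb b = k ∧ (k : ℝ) ≤ (1 / 2 + ε) * Real.log b) ∧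
      (∀ y : ℕ, n₀ ≤ y → y < primorial y ∧
        ∃ k : ℕ, Kb (primorial y) = k ∧ (1 / 2 - ε) * Real.log (primorial y) ≤ k)) := by
  obtain ⟨C₀, hC₀, hall⟩ := Pool.Agent.R482.KB.all_bases Pool.Agent.R482.KB.primesWithDigits
    Pool.Agent.R482.KB.covering Pool.Agent.R482.KB.digitSums Pool.Agent.R482.KB.totientBound
  refine ⟨⟨C₀, hC₀, fun b hb => ?_⟩, ?_, ?_⟩
  · obtain ⟨K, hK1, hK2, hK3⟩ := hall b hb
    obtain ⟨k, h1, h2, h3, h4⟩ := Kb_eq b K hK1 hK3
    exact ⟨k, h1, h2, h3, (Nat.cast_le.2 h4).trans hK2⟩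
  · obtain ⟨C₁, hC₁, hup⟩ := Pool.Agent.H14.RP.exact_upper
    obtain ⟨C₂, hC₂, hll⟩ := Pool.Agent.H14.RP.fi_loglog
    refine ⟨max C₁ (C₁ * C₂ ^ 4), lt_max_of_lt_left hC₁, fun b hb => ?_⟩
    obtain ⟨K₀, hK1, hK2, hK3⟩ := hall b hb
    have hDne : {K : ℕ | DigitCover b K}.Nonempty := ⟨K₀, Pool.Agent.H14.RP.cov_digit b K₀ hb hK3⟩
    obtain ⟨K, hK4, hK5, hK6⟩ := hup b hb (Db b) (Nat.sInf_mem hDne)
    obtain ⟨k, h1, h2, h3, h4⟩ := Kb_eq b K hK4 hK6
    have h5 : (k : ℝ) ≤ Db b + C₁ * Pool.Agent.R482.KB.Fi b ^ 4 := (Nat.cast_le.2 h4).trans hK5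
    have hF1 := Pool.Agent.R482.KB.one_le_Fi b hb
    refine ⟨k, h1, Nat.sInf_le (Pool.Agent.H14.RP.cov_digit b k hb h3), ?_, ?_⟩
    · refine h5.trans ?_
      have h6 : C₁ * Pool.Agent.R482.KB.Fi b ^ 4 ≤ max C₁ (C₁ * C₂ ^ 4) * Pool.Agent.R482.KB.Fi b ^ 4 :=
        mul_le_mul_of_nonneg_right (le_max_left _ _) (by positivity)
      exact add_le_add_right h6 _
    · intro h16
      refine h5.trans ?_
      have h6 : Pool.Agent.R482.KB.Fi b ^ 4 ≤ (C₂ * Real.log (Real.log b)) ^ 4 :=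
        pow_le_pow_left₀ (by linarith) (hll b h16) 4
      have h7 : C₁ * Pool.Agent.R482.KB.Fi b ^ 4 ≤ max C₁ (C₁ * C₂ ^ 4) * Real.log (Real.log b) ^ 4 := by
        calc C₁ * Pool.Agent.R482.KB.Fi b ^ 4 ≤ C₁ * (C₂ * Real.log (Real.log b)) ^ 4 :=
              mul_le_mul_of_nonneg_left h6 hC₁.le
          _ = (C₁ * C₂ ^ 4) * Real.log (Real.log b) ^ 4 := by ring
          _ ≤ max C₁ (C₁ * C₂ ^ 4) * Real.log (Real.log b) ^ 4 :=
              mul_le_mul_of_nonneg_right (le_max_right _ _) (by positivity)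
      exact add_le_add_right h7 _
  · intro ε hε
    obtain ⟨b₀, hb₀⟩ := Pool.Agent.H14.RP.upper ε hε
    obtain ⟨y₀, hy₀⟩ := Pool.Agent.H14.RP.lower ε hε
    refine ⟨max b₀ (max y₀ 2), ?_, ?_⟩
    · intro b hb
      obtain ⟨K, hK1, hK2, hK3⟩ := hb₀ b ((le_max_left _ _).trans hb)
      obtain ⟨k, h1, h2, h3, h4⟩ := Kb_eq b K hK1 hK3
      exact ⟨k, h1, (Nat.cast_le.2 h4).trans hK2⟩
    · intro y hy
      have hy2 : 2 ≤ y := ((le_max_right _ _).trans (le_max_right _ _)).trans hy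
      obtain ⟨g1, g2⟩ := hy₀ y (((le_max_left _ _).trans (le_max_right _ _)).trans hy)
      refine ⟨g1, ?_⟩
      obtain ⟨K, hK1, hK2, hK3⟩ := hall (primorial y) (by omega)
      obtain ⟨k, h1, h2, h3, h4⟩ := Kb_eq _ K hK1 hK3
      exact ⟨k, h1, g2 k h3⟩

end Pool.Agent.Results.MP_eac634_nt.SharpConstant
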